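import Pool.Agent.TH707.SP.Main

/-!
# How many strings of a random oracle have to be changed to get a sparse hard set for `NP`?

An adversary who knows the random oracle `O` changes, for all large `n`, at most `g n` of the
strings of length at most `n`; the result is the oracle `A` (`Close g O A`). Everything is relative
to `A`; a set that `NP` reduces to is joined to `A`.

* If for every `ε > 0` there are infinitely many `n` with `g n ≤ 2 ^ (n ^ ε)`, then for almost every
  `O`, relative to all these `A`, no sparse set is hard for `NP` under polynomial-time Turing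
  reductions, not even under strong nondeterministic ones (which put `NP` into
  `NP^S ∩ coNP^S`). So `P ≠ NP` and the sparse set conjecture holds.
* Otherwise every oracle `O` can be changed such that `P = NP`; and every oracle `O` can be changed
  such that the sparse set conjecture fails, even though `NP ≠ coNP`: some tally set is hard
  for `NP`, and for `NEXP`, under polynomial-time Turing reductions.

For the last world: `NEXP` is contained in `BPP`, and `BPP` is not contained in `NP` (W900). If
`NP = coNP` then `BPP`, which is in the polynomial hierarchy, is in `NP`. The tally set contains the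
bits of good random strings for all languages in `NEXP`.
-/

set_option autoImplicit false

namespace Pool.Agent.Results.MP_634427_lc.ChangedStrings

open Pool.Agent.NPC Pool.Agent.H620R2.Gauge Pool.Agent.TH707.SP
open Pool.Agent.W900.CH (Close)
open Pool.Agent.H628R3.RO (randomOracle)
open MeasureTheory Filter

/-- The disjoint union of the oracles `Q` and `A`. -/
def join (Q A : Oracle) : Oracle
  | [] => false
  | false :: z => Q z
  | true :: z => A z

/-- The set `S` is sparse: it has at most `p n` elements of length at most `n`, for a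
polynomial `p`. -/
def Sparse (S : Oracle) : Prop :=
  ∃ p : Polynomial ℕ, ∀ n, {x : List Bool | S x = true ∧ x.length ≤ n}.ncard ≤ p.eval n

/-- The elements of `S` are strings of ones. -/
def Tally (S : Oracle) : Prop := ∀ x, S x = true → x = List.replicate x.length true

/-- The set `S` is hard for `NP` under polynomial-time Turing reductions relative to `A`. -/
def CookHard (A S : Oracle) : Prop := ∀ L, IsNP A L → IsP (join A S) L

/-- The set `S` is hard for `NP` under strong nondeterministic polynomial-time Turing reductions
relative to `A`. -/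
def StrongHard (A S : Oracle) : Prop :=
  ∀ L, IsNP A L → IsNP (join A S) L ∧ IsNP (join A S) Lᶜ

theorem join_eq : TH680.OD.join = join := by
  funext Q A x
  rcases x with _ | ⟨b, z⟩
  · rfl
  · cases b <;> rfl

theorem strong_of_cook {A S : Oracle} (h : CookHard A S) : StrongHard A S := by
  intro L hL
  have h1 := h L hL
  refine ⟨h1.isNP, ?_⟩
  rw [← join_eq] at h1 ⊢
  exact isNP_compl_join h1

theorem not_strong {A : Oracle} (h : ∃ L, IsNP A L ∧ ¬ WithAdvice (IsNP A) Lᶜ) {S : Oracle}
    (hS : Sparse S) : ¬ StrongHard A S := by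
  obtain ⟨p, hp⟩ := hS
  intro hcon
  refine no_sparse h hp fun L hL => ?_
  rw [join_eq]
  exact (hcon L hL).2

/-- **Sparse hard sets near random oracles.** -/
theorem result (g : ℕ → ℝ) :
    ((∀ ε : ℝ, 0 < ε → ∃ᶠ n : ℕ in atTop, g n ≤ 2 ^ (n : ℝ) ^ ε) →
      ∀ᵐ O ∂randomOracle, ∀ A : Oracle, Close g O A →
        ∀ S, Sparse S → ¬ StrongHard A S ∧ ¬ CookHard A S) ∧
    ((¬ ∀ ε : ℝ, 0 < ε → ∃ᶠ n : ℕ in atTop, g n ≤ 2 ^ (n : ℝ) ^ ε) →
      ∀ O : Oracle,
        (∃ A : Oracle, Close g O A ∧ ∀ L, IsNP A L → IsP A L) ∧
        ∃ A : Oracle, Close g O A ∧ (∃ L, IsNP A L ∧ ¬ IsNP A Lᶜ) ∧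
          ∃ T, Tally T ∧ CookHard A T ∧ ∀ L, IsNEXP A L → IsP (join A T) L) := by
  refine ⟨fun hg => ?_, fun hg O => ⟨?_, ?_⟩⟩
  · filter_upwards [W900.CH.ae_coNP hg] with O hO A hA S hS
    have h1 := not_strong (hO A hA) hS
    exact ⟨h1, fun h2 => h1 (strong_of_cook h2)⟩
  · obtain ⟨A, h1, h2⟩ := W900.CH.exists_close_PSPACE hg O
    exact ⟨A, h1, fun L hL => isP_of_reduces (h2 _ hL.isPSPACE)⟩
  · obtain ⟨A, h1, h2, h3⟩ := W900.RB.exists_close_BPP hg O
    obtain ⟨T, h4, h5⟩ := tally_nexp h2
    rw [join_eq] at h5
    exact ⟨A, h1, np_ne_conp h3, T, h4, fun L hL => h5 L hL.isNEXP, h5⟩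

end Pool.Agent.Results.MP_634427_lc.ChangedStrings
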