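import Pool.Agent.TH684.FN.Sparse

/-!
# The sparse set conjecture for Turing reductions with few negative answers

Polynomial time is Mathlib's `Turing.TM2ComputableInPolyTime`, for functions on bit strings.

Theorem. Let `k` be a constant. If some sparse set is `NP`-hard under polynomial-time Turing
reductions in which all inputs in the set (or all inputs not in the set) get at most `k` negative
answers, then `P = NP`. There is no bound on the number of positive answers, and the questions are
adaptive.

This contains the theorem of Ogiwara and Watanabe (1991) on bounded truth-table reductions, the
theorem on conjunctive truth-table reductions (`k = 0`: an input in the set gets only positive
answers), the one on bounded truth-table reductions to sets that reduce conjunctively to sparse sets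
(Arvind, Köbler, Mundhenk 1992), and the Hausdorff reductions to sparse sets (`k = 1`: the first
negative answer decides), for which only lowness results were known.

The same holds for the questions `is ∑ u_j v_j = c?` to an equality gate (an exact threshold gate)
with arbitrary real weights, for integer vectors `v` computed in polynomial time, and with a
threshold gate with arbitrary real weights that decides at the end. A sparse set is such an oracle:
the numbers of its strings of bounded length are the zeros of a polynomial.

Proof. Let `O` be the equality gate and let `r = n ^ b + b` be the number of questions. There are at
most `(r + 1) ^ k` vectors `s` of `r` answers with at most `k` negative ones. For such a vector `s`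
let `G (s)` be the product over its negative positions `i` of the numbers `(∑ u_j v_j - c) ^ 2`,
where `v` is the question number `i + 1` after the answers `s_1, …, s_i`. If `G (s) ≠ 0`, then `s` is
the true vector of answers, or, at the first difference, `s` is positive and the true vector is
negative. So if the vectors `s` are ordered lexicographically with weights `K ^ (number of s)` (`K`
very large, the exponents up to `2 ^ r`), the true vector dominates the sum of the numbers
`K ^ (number of s) * G (s) * (value of the last gate - θ - η)`, and its sign is right. This is a
polynomial of degree at most `2 k + 1` with arbitrary real coefficients in the entries of
polynomially many integer vectors, all computed in polynomial time, so one threshold gate decides `A`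
from products of entries. By the theorem on one threshold gate with arbitrary weights
(`MP_8a52c3_lc.ArbitraryWeightGate`: exclusion of a vector of answers, and a constructive form of
Forster's theorem), `P = NP`.
-/

set_option autoImplicit false

namespace Pool.Agent.Results.MP_634427_lc.FewNegativeAnswers

open Pool.Agent.NPC Pool.Agent.H579R2.Spt Pool.Agent.TH684.FN

/-- **The sparse set conjecture for Turing reductions with few negative answers.** The following are
equivalent: `P = NP`; some sparse set is `NP`-hard under polynomial-time Turing reductions with a
bounded number of negative answers; some `NP`-hard set reduces in this way to a sparse set; some
`NP`-hard set is decided with questions to an equality gate, a bounded number of which are answered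
no, and a threshold gate at the end; all sets in `NP` are decided in this way without negative
answers. -/
theorem result : List.TFAE
    [∀ L : Set (List Bool), InNP L → InP L,
      ∃ S : Set (List Bool), Sparse S ∧ ∀ L, InNP L → ∃ k, ReducesFewNegative k L S,
      ∃ (A S : Set (List Bool)) (k : ℕ), NPHard A ∧ Sparse S ∧ ReducesFewNegative k A S,
      ∃ (A : Set (List Bool)) (k : ℕ), NPHard A ∧ FewNegative k A,
      ∀ A : Set (List Bool), InNP A → FewNegative 0 A] :=
  few_negative_tfae

end Pool.Agent.Results.MP_634427_lc.FewNegativeAnswers
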