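import Pool.Agent.TH707.SP.Main

/-!
# The size of the set of the oracles with sparse hard sets for `NP`

For every gauge `f`, each of the following sets of oracles `A` is a null set for `f` if and only if,
for every `ε > 0`, `f N ≤ 2 ^ ((log N) ^ ε)` for infinitely many `N`:

* some sparse set is hard for `NP` under polynomial-time Turing reductions, relative to `A`;
* some sparse set is hard for `NP` under strong nondeterministic polynomial-time Turing reductions,
  relative to `A`;
* `NP ≠ coNP` relative to `A`, and some tally set is hard for `NEXP` (hence for `NP`) under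
  polynomial-time Turing reductions, relative to `A`. So the sparse set conjecture fails.

So the set of the counterexamples to the relativized sparse set conjecture is exactly as large, on
the scale of all gauges, as the set of the oracles with `P = NP`.
-/

set_option autoImplicit false

namespace Pool.Agent.Results.MP_634427_lc.GaugeThreshold

open Pool.Agent.NPC Pool.Agent.H620R2.Gauge Pool.Agent.TH707.SP
open Filter

/-- The disjoint union of the oracles `Q` and `A`. -/
def join (Q A : Oracle) : Oracle
  | [] => false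
  | false :: z => Q z
  | true :: z => A z

/-- The set `S` is sparse: it has at most `p n` elements of length at most `n`, for a
polynomial `p`. -/
def Sparse (S : Oracle) : Prop :=
  ∃ p : Polynomial ℕ, ∀ n, {x : List Bool | S x = true ∧ x.length ≤ n}.ncard ≤ p.eval n

/-- The elements of `S` are strings of ones. -/
def Tally (S : Oracle) : Prop := ∀ x, S x = true → x = List.replicate x.length true

/-- The set `S` is hard for `NP` under polynomial-time Turing reductions relative to `A`. -/
def CookHard (A S : Oracle) : Prop := ∀ L, IsNP A L → IsP (join A S) L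

/-- The set `S` is hard for `NP` under strong nondeterministic polynomial-time Turing reductions
relative to `A`. -/
def StrongHard (A S : Oracle) : Prop :=
  ∀ L, IsNP A L → IsNP (join A S) L ∧ IsNP (join A S) Lᶜ

theorem join_eq : TH680.OD.join = join := by
  funext Q A x
  rcases x with _ | ⟨b, z⟩
  · rfl
  · cases b <;> rfl

theorem strong_of_cook {A S : Oracle} (h : CookHard A S) : StrongHard A S := by
  intro L hL
  have h1 := h L hL
  refine ⟨h1.isNP, ?_⟩
  rw [← join_eq] at h1 ⊢
  exact isNP_compl_join h1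

theorem advice_of_strong {A S : Oracle} (hS : Sparse S) (h : StrongHard A S) :
    ∀ L, IsNP A L → WithAdvice (IsNP A) Lᶜ := by
  obtain ⟨p, hp⟩ := hS
  by_contra hcon
  push Not at hcon
  refine no_sparse hcon hp fun L hL => ?_
  rw [join_eq]
  exact (h L hL).2

theorem sparse_empty : Sparse (fun _ => false) := by
  refine ⟨0, fun n => ?_⟩
  simp

theorem cook_of_collapse {A : Oracle}
    (h : ∀ L, IsPSPACE A L → Reduces L {x | A x = true}) : CookHard A (fun _ => false) := by
  intro L hL
  obtain ⟨V, hV, hVL⟩ := isP_of_reduces (h L hL.isPSPACE)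
  refine ⟨V, ?_, hVL⟩
  rw [← join_eq]
  exact Pool.Agent.TH680.DT.isFP_subst (isFP_left A _) hV

/-- **The gauge size of the set of the oracles with sparse hard sets.** -/
theorem result (f : ℕ → ℝ) :
    (Null f {A : Oracle | ∃ S, Sparse S ∧ CookHard A S} ↔
        ∀ ε : ℝ, 0 < ε → ∃ᶠ N : ℕ in atTop, f N ≤ 2 ^ (Real.logb 2 N) ^ ε) ∧
      (Null f {A : Oracle | ∃ S, Sparse S ∧ StrongHard A S} ↔
        ∀ ε : ℝ, 0 < ε → ∃ᶠ N : ℕ in atTop, f N ≤ 2 ^ (Real.logb 2 N) ^ ε) ∧
      (Null f {A : Oracle | (∃ L, IsNP A L ∧ ¬ IsNP A Lᶜ) ∧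
          ∃ T, Tally T ∧ ∀ L, IsNEXP A L → IsP (join A T) L} ↔
        ∀ ε : ℝ, 0 < ε → ∃ᶠ N : ℕ in atTop, f N ≤ 2 ^ (Real.logb 2 N) ^ ε) := by
  have up : ∀ X : Set Oracle, (∀ A ∈ X, ∃ S, Sparse S ∧ StrongHard A S) →
      (∀ ε : ℝ, 0 < ε → ∃ᶠ N : ℕ in atTop, f N ≤ 2 ^ (Real.logb 2 N) ^ ε) → Null f X := by
    intro X hX hf
    refine (W900.CH.null_coNP f hf).mono fun A hA => ?_
    obtain ⟨S, h1, h2⟩ := hX A hA
    exact advice_of_strong h1 h2
  have down : ∀ X : Set Oracle,
      (∀ A : Oracle, (∀ L, IsPSPACE A L → Reduces L {x | A x = true}) → A ∈ X) →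
      Null f X → ∀ ε : ℝ, 0 < ε → ∃ᶠ N : ℕ in atTop, f N ≤ 2 ^ (Real.logb 2 N) ^ ε := by
    intro X hX hn ε hε
    by_contra hcon
    rw [Filter.not_frequently] at hcon
    exact not_null f ε hε (hcon.mono fun N h => not_le.1 h) _ hX hn
  refine ⟨⟨down _ ?_, up _ ?_⟩, ⟨down _ ?_, up _ ?_⟩, ⟨?_, up _ ?_⟩⟩
  · intro A hA
    exact ⟨_, sparse_empty, cook_of_collapse hA⟩
  · rintro A ⟨S, h1, h2⟩
    exact ⟨S, h1, strong_of_cook h2⟩
  · intro A hA
    exact ⟨_, sparse_empty, strong_of_cook (cook_of_collapse hA)⟩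
  · intro A hA
    exact hA
  · intro hn
    by_contra hcon
    refine TH683.GP.not_null_nx hcon _ (fun A h1 h2 => ?_) hn
    obtain ⟨T, h4, h5⟩ := tally_nexp h1
    rw [join_eq] at h5
    exact ⟨np_ne_conp h2, T, h4, h5⟩
  · rintro A ⟨_, T, h1, h2⟩
    refine ⟨T, ?_, strong_of_cook fun L hL => h2 L hL.isNEXP⟩
    refine ⟨Polynomial.X + 1, fun n => ?_⟩
    have h3 : {x : List Bool | T x = true ∧ x.length ≤ n} ⊆
        ((Finset.range (n + 1)).image (fun m => List.replicate m true) : Finset (List Bool)) := by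
      rintro x ⟨h3, h4⟩
      rw [Finset.mem_coe, Finset.mem_image]
      exact ⟨x.length, Finset.mem_range.2 (by omega), (h1 x h3).symm⟩
    refine (Set.ncard_le_ncard h3 (Finset.finite_toSet _)).trans ?_
    rw [Set.ncard_coe_finset]
    refine Finset.card_image_le.trans ?_
    simp

end Pool.Agent.Results.MP_634427_lc.GaugeThreshold
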