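import Pool.Agent.TH682.VC.Thm

/-!
# Votes of simple concepts for an `NP`-hard set

Polynomial time is Mathlib's `Turing.TM2ComputableInPolyTime`, for functions on bit strings. A
concept is a set of strings.

Theorem. Let `C` be a class of concepts of finite VC dimension whose consistency problem (is a given
list of labelled strings consistent with a concept in `C`?) is in `P`. If some `NP`-hard set is
decided by votes of concepts in `C`, then `P = NP`.

Here `A` is decided by votes of concepts in `C` if for every `n` there are an advice `a` (a number,
polynomial in `n`), a list of concepts `h` in `C` with integer weights of polynomial total weight and
a threshold, all three arbitrary, such that `x ∈ A` (for `|x| ≤ n`) if and only if the voters for `x`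
have total weight above the threshold; the voter with the concept `h` decides in polynomial time,
from `x`, `a` and the answers of `h` to polynomially many questions `f (x, a)`.

Examples of `C`: the sets of at most `k` strings (this case contains the theorem on truth-table
reductions to sparse sets with threshold evaluators of constant width and polynomial weight, the
starting `MP_634427_lc.CensusWidth`, where the questions and the evaluator are as here); the half-spaces
of a fixed dimension, with arbitrary real coefficients; boxes, balls and semi-algebraic sets of
fixed dimension and complexity; the initial segments of a linear order decidable in polynomial time.
For the concepts of the last three kinds the restriction to non-adaptive questions is important: with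
adaptive questions one cut of the real line can give an arbitrary advice string of polynomial length,
and every set in `P/poly` is decided in this way.

Proof. It is enough to exclude one vector of an explicit family as the vector of the answers of `A`
to polynomially many questions (`Pool.Agent.TH684.EX.p_eq_np_of_exc`, the theorem behind
`MP_8a52c3_lc.OneExcludedVector`).
1. The vectors of the answers of the concepts in `C` to all questions for the strings in the list
   can be enumerated: extend the consistent labelled samples string by string. By Sauer's lemma there
   are polynomially many of them. Hence there is a list of polynomially many vectors that contains
   the vectors of all voters.
2. If a sign vector is a vote of total weight `W` then it has correlation at least `1 / (4 W + 4)`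
   with one of the voters or with the constant vector (discriminator lemma).
3. In a family of `2 ^ l` nearly orthogonal sign vectors (labels from a Hadamard code over a prime
   field) at most `2 M ^ 2` have correlation at least `1 / M` with a given vector. So, if there are
   more label vectors than `2 M ^ 2` times the number of candidate voters, then some label vector
   has a small correlation with all candidates; it is found by search, and by step 2 it is not the
   vector of the answers of `A`.
-/

set_option autoImplicit false

namespace Pool.Agent.Results.MP_634427_lc.VoteOfConcepts

open Pool.Agent.NPC Pool.Agent.TH682.VC

/-- **Votes of simple concepts for an `NP`-hard set.** The following are equivalent: `P = NP`; some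
`NP`-hard set is decided by votes of concepts of a class of finite VC dimension with a consistency
problem in `P`; some `NP`-hard set is decided by votes of concepts of a class whose answer vectors
can be enumerated in polynomial time; all sets in `NP` are decided by votes of concepts of every
nonempty class. -/
theorem result : List.TFAE
    [∀ L : Set (List Bool), InNP L → InP L,
      ∃ (A : Set (List Bool)) (C : Set (Set (List Bool))) (d : ℕ), NPHard A ∧
        InPP (Consistent C) ∧ VCAtMost C d ∧ Vote C A,
      ∃ (A : Set (List Bool)) (C : Set (Set (List Bool))), NPHard A ∧ Enumerable C ∧ Vote C A,
      ∀ (A : Set (List Bool)) (C : Set (Set (List Bool))), InNP A → C.Nonempty → Vote C A] :=
  vote_tfae

end Pool.Agent.Results.MP_634427_lc.VoteOfConcepts
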